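import Pool.Agent.W179.ST

set_option autoImplicit false

/-!
Graphs of bounded degree, logarithmic girth and small independence number (`J4H64/VC/Base.lean` with
a bound for the number of vertices).
-/

namespace Pool.Agent.J4H64.LS.Base

open Finset Pool.Agent.W179.Erdos

open Classical in
/-- the vertices of large degree -/
noncomputable def Hi {n M : ℕ} [NeZero M] (L : ℕ) (f : Sym2 (Fin n) → Fin M) : Finset (Fin n) :=
  univ.filter fun v => L < (univ.filter fun w => f s(v, w) = 0).card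

open Classical in
theorem main_count (k : ℕ) (hk : 1 ≤ k) : ∃ L : ℕ, ∀ g : ℕ,
    ∃ (n s M : ℕ) (_ : NeZero M) (f : Sym2 (Fin n) → Fin M),
    1 ≤ s ∧ n = 2 * k * s ∧ n ≤ (2 * k * (8 * k + 1)) ^ (2 * g + 5) ∧
    g * (2 * k * (8 * k + 1)) ^ (g + 3) ≤ s ∧
    (X g f).card + (Hi L f).card < k * s ∧
    ∀ S : Finset (Fin n), S.card = s → ∃ e ∈ pairs S, f e = 0 := by
  refine ⟨16 * (2 * k * (8 * k + 1)), fun g => ?_⟩
  -- parameters
  set D : ℝ := 2 * k * (8 * k + 1) with hD
  have hk' : (1 : ℝ) ≤ k := by exact_mod_cast hk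
  have hD1 : 1 ≤ D := by rw [hD]; nlinarith
  obtain ⟨M0, hM00⟩ : ∃ M0, M0 = 8 * (g * (2 * k * (8 * k + 1)) ^ (g + 3)) + 1 := ⟨_, rfl⟩
  have hM0 : 8 * (g * D ^ (g + 3)) < (M0 : ℝ) := by
    rw [hM00, hD]
    push_cast
    linarith
  set M : ℕ := M0 + 1 with hM
  set s : ℕ := 8 * k * M + 1 with hs
  set n : ℕ := 2 * k * s with hn
  have hnb : n ≤ (2 * k * (8 * k + 1)) ^ (2 * g + 5) := by
    obtain ⟨T, hT⟩ : ∃ T, T = 2 * k * (8 * k + 1) := ⟨_, rfl⟩
    have hT18 : 18 ≤ T := by rw [hT]; nlinarith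
    have h1 : n ≤ T * M := by
      rw [hn, hs, hT]
      have : 1 ≤ M := by omega
      nlinarith
    have h2 : g ≤ T ^ g := (Nat.lt_pow_self (by omega : 1 < T)).le
    have h3 : M ≤ T ^ (2 * g + 4) := by
      rw [hM, hM00, ← hT]
      have h4 : g * T ^ (g + 3) ≤ T ^ (2 * g + 3) := by
        calc g * T ^ (g + 3) ≤ T ^ g * T ^ (g + 3) := Nat.mul_le_mul_right _ h2
          _ = T ^ (2 * g + 3) := by rw [← pow_add]; congr 1; ring
      have h5 : 1 ≤ T ^ (2 * g + 3) := Nat.one_le_pow _ _ (by omega)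
      have h6 : T ^ (2 * g + 4) = T ^ (2 * g + 3) * T := pow_succ _ _
      rw [h6]
      nlinarith
    rw [← hT]
    calc n ≤ T * M := h1
      _ ≤ T * T ^ (2 * g + 4) := Nat.mul_le_mul_left _ h3
      _ = T ^ (2 * g + 5) := by rw [mul_comm, ← pow_succ]
  have hnl : g * (2 * k * (8 * k + 1)) ^ (g + 3) ≤ s := by
    have h1 : g * (2 * k * (8 * k + 1)) ^ (g + 3) ≤ M := by
      rw [hM, hM00]
      omega
    have h2 : M ≤ s := by
      rw [hs]
      nlinarith [Nat.mul_le_mul_right M (show 1 ≤ 8 * k by omega)]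
    exact h1.trans h2
  haveI : NeZero M := ⟨by omega⟩
  have hMpos : (0 : ℝ) < M := by exact_mod_cast (by omega : 0 < M)
  have hM1 : (1 : ℝ) ≤ M := by exact_mod_cast (by omega : 1 ≤ M)
  have hkpos : (0 : ℝ) < k := by linarith
  have hsM : (8 * k * M + 1 : ℝ) = s := by rw [hs]; push_cast; ring
  have hnR : (n : ℝ) = 2 * k * s := by rw [hn]; push_cast; ring
  have hnD : (n : ℝ) ≤ D * M := by
    rw [hnR, ← hsM, hD]; nlinarith
  set Q : ℝ := (M : ℝ) ^ Fintype.card (Sym2 (Fin n)) with hQ
  have hQpos : 0 < Q := by positivity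
  by_contra hcon
  push Not at hcon
  have hall : ∀ f : Sym2 (Fin n) → Fin M,
      k * s ≤ (X g f).card + (Hi (16 * (2 * k * (8 * k + 1))) f).card ∨
      ∃ S : Finset (Fin n), S.card = s ∧ ∀ e ∈ pairs S, f e ≠ 0 := by
    intro f
    by_contra h
    push Not at h
    obtain ⟨S, hS, h2⟩ := hcon n s M inferInstance f (by omega) rfl hnb hnl h.1
    obtain ⟨e, he, h3⟩ := h.2 S hS
    exact h2 e he h3
  -- first moment of the number of cycles
  have hX : (∑ f : Sym2 (Fin n) → Fin M, ((X g f).card : ℝ)) ≤ g * D ^ (g + 3) * Q := by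
    have h1 : (∑ f : Sym2 (Fin n) → Fin M, ((X g f).card : ℝ)) =
        ∑ p : (Σ m : Fin g, (Fin (m.val + 3) → Fin n)),
          ((univ.filter fun f : Sym2 (Fin n) → Fin M => Function.Injective p.2 ∧
            ∀ e ∈ cedges p.2, f e ∈ ({0} : Finset (Fin M))).card : ℝ) := by
      simp only [X, card_filter, Nat.cast_sum]
      rw [sum_comm]
    rw [h1]
    have h2 : ∀ p : (Σ m : Fin g, (Fin (m.val + 3) → Fin n)),
        ((univ.filter fun f : Sym2 (Fin n) → Fin M => Function.Injective p.2 ∧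
            ∀ e ∈ cedges p.2, f e ∈ ({0} : Finset (Fin M))).card : ℝ) ≤
          Q / (M : ℝ) ^ (p.1.val + 3) := by
      intro p
      by_cases hp : Function.Injective p.2
      · have h3 := count (M := M) (cedges p.2) ({0} : Finset (Fin M))
        rw [card_cedges p.2 hp] at h3
        simp only [card_singleton, Nat.cast_one, one_pow, one_mul] at h3
        rw [le_div_iff₀ (by positivity)]
        refine le_trans (le_of_eq ?_) (le_of_eq h3)
        congr 2
        congr 1
        ext f
        simp [hp]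
      · have : (univ.filter fun f : Sym2 (Fin n) → Fin M => Function.Injective p.2 ∧
            ∀ e ∈ cedges p.2, f e ∈ ({0} : Finset (Fin M))) = ∅ := by
          ext f; simp [hp]
        rw [this]
        simp only [card_empty, Nat.cast_zero]
        positivity
    refine (sum_le_sum fun p _ => h2 p).trans ?_
    rw [← univ_sigma_univ, sum_sigma]
    simp only [sum_const, card_univ, Fintype.card_fun, Fintype.card_fin, nsmul_eq_mul]
    have h4 : ∀ m : Fin g, ((n ^ (m.val + 3) : ℕ) : ℝ) * (Q / (M : ℝ) ^ (m.val + 3)) ≤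
        D ^ (g + 3) * Q := by
      intro m
      have h5 : ((n ^ (m.val + 3) : ℕ) : ℝ) ≤ D ^ (m.val + 3) * (M : ℝ) ^ (m.val + 3) := by
        push_cast
        rw [← mul_pow]
        exact pow_le_pow_left₀ (by positivity) hnD _
      have h6 : D ^ (m.val + 3) ≤ D ^ (g + 3) := pow_le_pow_right₀ hD1 (by omega)
      calc ((n ^ (m.val + 3) : ℕ) : ℝ) * (Q / (M : ℝ) ^ (m.val + 3))
          ≤ (D ^ (m.val + 3) * (M : ℝ) ^ (m.val + 3)) * (Q / (M : ℝ) ^ (m.val + 3)) := by
            gcongr
        _ = D ^ (m.val + 3) * Q := by field_simp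
        _ ≤ D ^ (g + 3) * Q := by gcongr
    refine (sum_le_sum fun m _ => h4 m).trans ?_
    rw [sum_const, card_univ, Fintype.card_fin, nsmul_eq_mul]
    exact le_of_eq (by ring)
  -- first moment of the number of vertices of large degree
  have hY : (∑ f : Sym2 (Fin n) → Fin M, ((Hi (16 * (2 * k * (8 * k + 1))) f).card : ℝ)) ≤
      k * s / 8 * Q := by
    have h1 : ∀ f : Sym2 (Fin n) → Fin M,
        16 * D * ((Hi (16 * (2 * k * (8 * k + 1))) f).card : ℝ) ≤
        ∑ v : Fin n, ∑ w : Fin n, if f s(v, w) = 0 then (1 : ℝ) else 0 := by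
      intro f
      have h2 : 16 * D * ((Hi (16 * (2 * k * (8 * k + 1))) f).card : ℝ) =
          ∑ v ∈ Hi (16 * (2 * k * (8 * k + 1))) f, 16 * D := by
        rw [sum_const, nsmul_eq_mul]; ring
      rw [h2]
      refine (sum_le_sum fun v hv => ?_).trans
        (sum_le_sum_of_subset_of_nonneg (subset_univ _) fun v _ _ =>
          sum_nonneg fun w _ => by split_ifs <;> norm_num)
      have h3 := (mem_filter.1 hv).2
      rw [← natCast_card_filter]
      have h4 : ((16 * (2 * k * (8 * k + 1)) : ℕ) : ℝ) ≤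
          ((univ.filter fun w => f s(v, w) = 0).card : ℝ) := by exact_mod_cast h3.le
      push_cast at h4
      rw [hD]
      exact h4
    have h2 : (∑ f : Sym2 (Fin n) → Fin M, ∑ v : Fin n, ∑ w : Fin n,
        if f s(v, w) = 0 then (1 : ℝ) else 0) = n * (n * (Q / M)) := by
      rw [sum_comm]
      have h3 : ∀ v : Fin n, (∑ f : Sym2 (Fin n) → Fin M, ∑ w : Fin n,
          if f s(v, w) = 0 then (1 : ℝ) else 0) = n * (Q / M) := by
        intro v
        rw [sum_comm]
        have h4 : ∀ w : Fin n, (∑ f : Sym2 (Fin n) → Fin M,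
            if f s(v, w) = 0 then (1 : ℝ) else 0) = Q / M := by
          intro w
          rw [← natCast_card_filter]
          have h5 := count (M := M) ({s(v, w)} : Finset (Sym2 (Fin n))) ({0} : Finset (Fin M))
          simp only [mem_singleton, forall_eq, card_singleton, pow_one, Nat.cast_one,
            one_mul] at h5
          rw [eq_div_iff (by positivity)]
          exact h5
        rw [sum_congr rfl fun w _ => h4 w, sum_const, card_univ, Fintype.card_fin, nsmul_eq_mul]
      rw [sum_congr rfl fun v _ => h3 v, sum_const, card_univ, Fintype.card_fin, nsmul_eq_mul]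
    have h3 : 16 * D * (∑ f : Sym2 (Fin n) → Fin M,
        ((Hi (16 * (2 * k * (8 * k + 1))) f).card : ℝ)) ≤ n * (n * (Q / M)) := by
      rw [mul_sum, ← h2]
      exact sum_le_sum fun f _ => h1 f
    have h4 : (n : ℝ) * (n * (Q / M)) ≤ n * (D * Q) := by
      have h5 : (n : ℝ) * (Q / M) ≤ D * Q := by
        calc (n : ℝ) * (Q / M) ≤ (D * M) * (Q / M) := by gcongr
          _ = D * Q := by field_simp
      gcongr
    have h5 : 16 * D * (∑ f : Sym2 (Fin n) → Fin M,
        ((Hi (16 * (2 * k * (8 * k + 1))) f).card : ℝ)) ≤ 16 * D * (k * s / 8 * Q) := by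
      refine (h3.trans h4).trans (le_of_eq ?_)
      rw [hnR]; ring
    exact le_of_mul_le_mul_left h5 (by positivity)
  -- the number of functions with many short cycles
  set Z : (Sym2 (Fin n) → Fin M) → ℕ := fun f =>
    (X g f).card + (Hi (16 * (2 * k * (8 * k + 1))) f).card with hZ
  have hA : ((univ.filter fun f : Sym2 (Fin n) → Fin M => k * s ≤ Z f).card : ℝ) *
      (k * s) ≤ (g * D ^ (g + 3) + k * s / 8) * Q := by
    have hXY : (∑ f : Sym2 (Fin n) → Fin M, (Z f : ℝ)) ≤ (g * D ^ (g + 3) + k * s / 8) * Q := by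
      have h1 : (∑ f : Sym2 (Fin n) → Fin M, (Z f : ℝ)) =
          (∑ f : Sym2 (Fin n) → Fin M, ((X g f).card : ℝ)) +
          ∑ f : Sym2 (Fin n) → Fin M, ((Hi (16 * (2 * k * (8 * k + 1))) f).card : ℝ) := by
        rw [← sum_add_distrib]
        refine sum_congr rfl fun f _ => ?_
        rw [hZ]
        push_cast
        ring
      rw [h1, add_mul]
      exact add_le_add hX hY
    refine le_trans ?_ hXY
    calc ((univ.filter fun f : Sym2 (Fin n) → Fin M => k * s ≤ Z f).card : ℝ) * (k * s)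
        = ∑ f ∈ (univ.filter fun f : Sym2 (Fin n) → Fin M => k * s ≤ Z f),
            ((k : ℝ) * s) := by rw [sum_const, nsmul_eq_mul]
      _ ≤ ∑ f ∈ (univ.filter fun f : Sym2 (Fin n) → Fin M => k * s ≤ Z f), (Z f : ℝ) := by
          refine sum_le_sum fun f hf => ?_
          have := (mem_filter.mp hf).2
          exact_mod_cast this
      _ ≤ ∑ f : Sym2 (Fin n) → Fin M, (Z f : ℝ) :=
          sum_le_sum_of_subset_of_nonneg (filter_subset _ _) fun _ _ _ => by positivity
  have hsk : 8 * (g * D ^ (g + 3)) < (k : ℝ) * s := by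
    refine hM0.trans_le ?_
    have h0 : (M0 : ℝ) ≤ M := by exact_mod_cast (by omega : M0 ≤ M)
    have h1 : (M : ℝ) ≤ s := by rw [← hsM]; nlinarith
    have h2 : (s : ℝ) ≤ k * s := by
      have : (0 : ℝ) ≤ s := by positivity
      nlinarith
    linarith
  have hks : (0 : ℝ) < k * s := by
    have h3 : (0 : ℝ) ≤ g * D ^ (g + 3) := by positivity
    linarith
  have hA' : ((univ.filter fun f : Sym2 (Fin n) → Fin M => k * s ≤ Z f).card : ℝ) <
      Q / 2 := by
    by_contra h
    push Not at h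
    have h1 : Q / 2 * (k * s) ≤ (g * D ^ (g + 3) + k * s / 8) * Q :=
      (mul_le_mul_of_nonneg_right h (by positivity)).trans hA
    have h2 : Q * (k * s / 2) ≤ Q * (g * D ^ (g + 3) + k * s / 8) := by
      calc Q * (k * s / 2) = Q / 2 * (k * s) := by ring
        _ ≤ _ := h1
        _ = _ := by ring
    have h3 := le_of_mul_le_mul_left h2 hQpos
    linarith
  -- independent sets
  have hB : ∀ S : Finset (Fin n), S.card = s →
      ((univ.filter fun f : Sym2 (Fin n) → Fin M => ∀ e ∈ pairs S, f e ∈ ({0}ᶜ : Finset (Fin M))).card : ℝ)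
        ≤ Real.exp (-(4 * k * s)) * Q := by
    intro S hS
    have h1 := count (M := M) (pairs S) ({0}ᶜ : Finset (Fin M))
    have hc : (pairs S).card = s.choose 2 := by
      unfold pairs
      rw [Sym2.card_image_offDiag, hS]
    have hc2 : (({0}ᶜ : Finset (Fin M)).card : ℝ) = M - 1 := by
      rw [card_compl, card_singleton, Fintype.card_fin, Nat.cast_sub (by omega)]
      simp
    rw [hc, hc2] at h1
    have h2 : ((univ.filter fun f : Sym2 (Fin n) → Fin M =>
        ∀ e ∈ pairs S, f e ∈ ({0}ᶜ : Finset (Fin M))).card : ℝ) =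
        (1 - 1 / (M : ℝ)) ^ (s.choose 2) * Q := by
      have h3 : (M : ℝ) ^ (s.choose 2) ≠ 0 := by positivity
      have h4 : (1 - 1 / (M : ℝ)) ^ (s.choose 2) * (M : ℝ) ^ (s.choose 2) =
          ((M : ℝ) - 1) ^ (s.choose 2) := by
        rw [← mul_pow]
        congr 1
        field_simp
      apply mul_right_cancel₀ h3
      rw [h1]
      calc ((M : ℝ) - 1) ^ (s.choose 2) * (M : ℝ) ^ Fintype.card (Sym2 (Fin n))
          = ((1 - 1 / (M : ℝ)) ^ (s.choose 2) * (M : ℝ) ^ (s.choose 2)) * Q := by rw [h4]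
        _ = _ := by ring
    rw [h2]
    gcongr
    have h5 : (1 - 1 / (M : ℝ)) ≤ Real.exp (-(1 / (M : ℝ))) := by
      have := Real.add_one_le_exp (-(1 / (M : ℝ)))
      linarith
    have h6 : 0 ≤ 1 - 1 / (M : ℝ) := by
      rw [sub_nonneg, div_le_one hMpos]
      exact hM1
    refine (pow_le_pow_left₀ h6 h5 _).trans ?_
    rw [← Real.exp_nat_mul]
    apply Real.exp_le_exp.mpr
    have h7 : ((s.choose 2 : ℕ) : ℝ) = s * (s - 1) / 2 := by
      rw [Nat.cast_choose_two]
    rw [h7]
    have h8 : ((s : ℝ) - 1) = 8 * k * M := by rw [← hsM]; ring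
    rw [h8]
    apply le_of_eq
    field_simp
    ring
  have hC : ((univ.filter fun f : Sym2 (Fin n) → Fin M => ∃ S : Finset (Fin n), S.card = s ∧
      ∀ e ∈ pairs S, f e ≠ 0).card : ℝ) ≤ 2 ^ n * (Real.exp (-(4 * k * s)) * Q) := by
    have h1 : (univ.filter fun f : Sym2 (Fin n) → Fin M => ∃ S : Finset (Fin n), S.card = s ∧
      ∀ e ∈ pairs S, f e ≠ 0) ⊆ (univ.filter fun S : Finset (Fin n) => S.card = s).biUnion
        fun S => univ.filter fun f : Sym2 (Fin n) → Fin M =>
          ∀ e ∈ pairs S, f e ∈ ({0}ᶜ : Finset (Fin M)) := by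
      intro f hf
      obtain ⟨S, hS, h⟩ := (mem_filter.mp hf).2
      rw [mem_biUnion]
      refine ⟨S, by simp [hS], ?_⟩
      simp only [mem_filter, mem_univ, true_and, mem_compl, mem_singleton]
      exact h
    have h2 := (card_le_card h1).trans card_biUnion_le
    have h3 : ((univ.filter fun f : Sym2 (Fin n) → Fin M => ∃ S : Finset (Fin n), S.card = s ∧
      ∀ e ∈ pairs S, f e ≠ 0).card : ℝ) ≤ ∑ S ∈ (univ.filter fun S : Finset (Fin n) => S.card = s),
        ((univ.filter fun f : Sym2 (Fin n) → Fin M =>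
          ∀ e ∈ pairs S, f e ∈ ({0}ᶜ : Finset (Fin M))).card : ℝ) := by
      exact_mod_cast h2
    refine h3.trans ((sum_le_sum fun S hS => hB S (mem_filter.mp hS).2).trans ?_)
    rw [sum_const, nsmul_eq_mul]
    gcongr
    have h4 : (univ.filter fun S : Finset (Fin n) => S.card = s).card ≤ 2 ^ n := by
      refine (card_le_univ _).trans ?_
      rw [Fintype.card_finset, Fintype.card_fin]
    exact_mod_cast h4
  have hC' : 2 ^ n * (Real.exp (-(4 * k * s)) * Q) < Q / 2 := by
    have h1 : (2 : ℝ) ^ n ≤ Real.exp n := by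
      have := Real.exp_one_gt_d9
      rw [← Real.exp_one_pow]
      exact pow_le_pow_left₀ (by norm_num) (by linarith) _
    have h2 : Real.exp n * Real.exp (-(4 * k * s)) = Real.exp (-(2 * k * s)) := by
      rw [← Real.exp_add, hnR]
      congr 1
      ring
    have h3 : Real.exp (-(2 * k * s)) < 1 / 2 := by
      have h4 : (1 : ℝ) ≤ 2 * k * s := by
        have : (1 : ℝ) ≤ s := by exact_mod_cast (by omega : 1 ≤ s)
        nlinarith
      have h5 : Real.exp (-(2 * k * s)) ≤ Real.exp (-1) := Real.exp_le_exp.mpr (by linarith)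
      have h6 : Real.exp (-1) < 1 / 2 := by
        rw [Real.exp_neg, inv_lt_comm₀ (Real.exp_pos _) (by norm_num)]
        have := Real.exp_one_gt_d9
        norm_num
        linarith
      linarith
    have h4 : (2 : ℝ) ^ n * Real.exp (-(4 * k * s)) < 1 / 2 := by
      refine lt_of_le_of_lt ?_ h3
      rw [← h2]
      gcongr
    nlinarith
  -- conclusion
  have hcover : (univ : Finset (Sym2 (Fin n) → Fin M)) ⊆
      (univ.filter fun f : Sym2 (Fin n) → Fin M => k * s ≤ Z f) ∪
      (univ.filter fun f : Sym2 (Fin n) → Fin M => ∃ S : Finset (Fin n), S.card = s ∧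
        ∀ e ∈ pairs S, f e ≠ 0) := by
    intro f _
    rw [mem_union]
    rcases hall f with h | h
    · left; exact mem_filter.2 ⟨mem_univ _, h⟩
    · right; simpa using h
  have h1 := (card_le_card hcover).trans (card_union_le _ _)
  have h2 : ((univ : Finset (Sym2 (Fin n) → Fin M)).card : ℝ) = Q := by
    rw [card_univ, Fintype.card_fun, Fintype.card_fin]
    push_cast
    rfl
  have h3 : Q ≤ ((univ.filter fun f : Sym2 (Fin n) → Fin M => k * s ≤ Z f).card : ℝ) +
      ((univ.filter fun f : Sym2 (Fin n) → Fin M => ∃ S : Finset (Fin n), S.card = s ∧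
        ∀ e ∈ pairs S, f e ≠ 0).card : ℝ) := by
    rw [← h2]
    exact_mod_cast h1
  linarith

/-- For every `k` there is a degree bound `L` such that for every `g` there is a graph of maximum
degree at most `L` and girth larger than `g` whose independent sets have less than a fraction `1/k`
of the vertices. -/
theorem exists_base (k : ℕ) (hk : 1 ≤ k) : ∃ L : ℕ, ∀ g : ℕ, ∃ (q : ℕ) (B : SimpleGraph (Fin q)),
    q ≤ (2 * k * (8 * k + 1)) ^ (2 * g + 7) ∧ (2 * k * (8 * k + 1)) ^ g ≤ q ∧
    (∀ v, ∀ S : Finset (Fin q), (∀ w ∈ S, B.Adj v w) → S.card ≤ L) ∧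
    (∀ (v : Fin q) (w : B.Walk v v), w.IsCycle → g < w.length) ∧
    ∀ I : Finset (Fin q), (∀ u ∈ I, ∀ v ∈ I, ¬ B.Adj u v) → k * I.card < q := by
  classical
  obtain ⟨L, hL⟩ := main_count k hk
  refine ⟨L, fun g => ?_⟩
  obtain ⟨n, s, M, _, f, hs, hn, hnb, hnl, hX, hI⟩ := hL (g + 1)
  let G : SimpleGraph (Fin n) :=
    { Adj := fun u v => u ≠ v ∧ f s(u, v) = 0
      symm := ⟨fun u v h => ⟨h.1.symm, by rw [Sym2.eq_swap]; exact h.2⟩⟩
      loopless := ⟨fun u h => h.1 rfl⟩ }
  let Bd : Finset (Fin n) := ((X (g + 1) f).image fun p => p.2 0) ∪ Hi L f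
  have hB : Bd.card < k * s := lt_of_le_of_lt ((card_union_le _ _).trans
    (Nat.add_le_add_right card_image_le _)) hX
  let U : Finset (Fin n) := Bdᶜ
  have hU : k * s ≤ U.card := by
    show k * s ≤ (Bdᶜ).card
    rw [card_compl, Fintype.card_fin]
    have : n = k * s + k * s := by rw [hn]; ring
    omega
  -- the vertices as numbers
  obtain ⟨φ, hφ, hφU⟩ : ∃ φ : Fin U.card → Fin n, Function.Injective φ ∧ ∀ i, φ i ∈ U :=
    ⟨fun i => (U.equivFin.symm i).val, fun i j h => U.equivFin.symm.injective (Subtype.ext h),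
      fun i => (U.equivFin.symm i).property⟩
  let B : SimpleGraph (Fin U.card) := G.comap φ
  refine ⟨U.card, B, ?_, ?_, ?_, ?_, ?_⟩
  · have h1 : U.card ≤ n := (card_le_univ U).trans (by rw [Fintype.card_fin])
    exact h1.trans hnb
  · refine le_trans ?_ hU
    have h1 : (2 * k * (8 * k + 1)) ^ g ≤ (2 * k * (8 * k + 1)) ^ (g + 1 + 3) :=
      Nat.pow_le_pow_right (by nlinarith) (by omega)
    have h2 : s ≤ k * s := Nat.le_mul_of_pos_left s hk
    calc (2 * k * (8 * k + 1)) ^ g ≤ 1 * (2 * k * (8 * k + 1)) ^ (g + 1 + 3) := by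
          rw [one_mul]; exact h1
      _ ≤ (g + 1) * (2 * k * (8 * k + 1)) ^ (g + 1 + 3) := Nat.mul_le_mul_right _ (by omega)
      _ ≤ s := hnl
      _ ≤ k * s := h2
  · intro v S hS
    have h1 : φ v ∉ Hi L f := fun h => (mem_compl.1 (hφU v)) (mem_union_right _ h)
    have h2 : (univ.filter fun w => f s(φ v, w) = 0).card ≤ L := by
      by_contra h
      push Not at h
      exact h1 (mem_filter.2 ⟨mem_univ _, h⟩)
    refine le_trans ?_ h2
    refine card_le_card_of_injOn φ ?_ (fun i _ j _ h => hφ h)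
    intro w hw
    have h3 : G.Adj (φ v) (φ w) := hS w (mem_coe.1 hw)
    exact mem_coe.2 (mem_filter.2 ⟨mem_univ _, h3.2⟩)
  · intro v w hw
    have h := Pool.Agent.W179.ST.FCyc.map (G' := G) (Pool.Agent.W179.ST.fcyc_of_walk w hw) φ hφ
      (fun u v h => h)
    obtain ⟨l, hl0⟩ : ∃ l, l = w.length := ⟨_, rfl⟩
    obtain ⟨ψ, hψ⟩ : ∃ ψ : ℕ → Fin n, ψ = fun i => φ (w.getVert i) := ⟨_, rfl⟩
    rw [← hl0, ← hψ] at h
    rw [← hl0]
    by_contra hl
    push Not at hl
    have h3 := h.three
    obtain ⟨m, rfl⟩ : ∃ m, l = m + 3 := ⟨l - 3, by omega⟩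
    have hm : m < g + 1 := by omega
    let v' : Fin (m + 3) → Fin n := fun t => ψ t.val
    have hv : Function.Injective v' := by
      intro a b hab
      exact Fin.ext (h.inj a.val a.isLt b.val b.isLt hab)
    have hz : ∀ e ∈ cedges v', f e ∈ ({0} : Finset (Fin M)) := by
      intro e he
      unfold cedges at he
      obtain ⟨t, -, rfl⟩ := mem_image.mp he
      rw [mem_singleton]
      by_cases ht : t.val + 1 < m + 3
      · have h5 : (t + 1 : Fin (m + 3)).val = t.val + 1 := by
          rw [Fin.val_add, Fin.val_one, Nat.mod_eq_of_lt ht]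
        have h4 := (h.adj t.val ht)
        have h6 : v' (t + 1) = ψ (t.val + 1) := by
          show ψ (t + 1 : Fin (m + 3)).val = _
          rw [h5]
        rw [h6]
        exact h4.2
      · have h7 : t.val = m + 3 - 1 := by
          have := t.isLt
          omega
        have h5 : (t + 1 : Fin (m + 3)).val = 0 := by
          rw [Fin.val_add, Fin.val_one, h7]
          have : m + 3 - 1 + 1 = m + 3 := by omega
          rw [this, Nat.mod_self]
        have h4 := h.close
        have h6 : v' (t + 1) = ψ 0 := by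
          show ψ (t + 1 : Fin (m + 3)).val = _
          rw [h5]
        have h8 : v' t = ψ (m + 3 - 1) := by
          show ψ t.val = _
          rw [h7]
        rw [h6, h8]
        exact h4.2
    have hmem : (⟨⟨m, hm⟩, v'⟩ : Σ m : Fin (g + 1), (Fin (m.val + 3) → Fin n)) ∈ X (g + 1) f := by
      unfold X
      rw [mem_filter]
      exact ⟨mem_univ _, hv, hz⟩
    have h9 : v' 0 ∈ Bd := mem_union_left _ (mem_image.mpr ⟨_, hmem, rfl⟩)
    have h10 : v' 0 = φ (w.getVert 0) := by
      show ψ 0 = _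
      rw [hψ]
    rw [h10] at h9
    exact (mem_compl.mp (hφU (w.getVert 0))) h9
  · intro I hI'
    by_contra hcon
    push Not at hcon
    have h1 : s ≤ I.card := by
      have h2 : k * s ≤ k * I.card := hU.trans hcon
      exact Nat.le_of_mul_le_mul_left h2 hk
    obtain ⟨T, hT1, hT2⟩ := exists_subset_card_eq h1
    let S' : Finset (Fin n) := T.map ⟨φ, hφ⟩
    have hS' : S'.card = s := by rw [card_map, hT2]
    obtain ⟨e', he', h0⟩ := hI S' hS'
    obtain ⟨a, ha, b, hb, hab, rfl⟩ := pairs_sub S' e' he'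
    obtain ⟨a', ha', rfl⟩ := mem_map.mp ha
    obtain ⟨b', hb', rfl⟩ := mem_map.mp hb
    have hadj : B.Adj a' b' := ⟨hab, h0⟩
    exact hI' _ (hT1 ha') _ (hT1 hb') hadj

end Pool.Agent.J4H64.LS.Base
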