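import Pool.Agent.J4H64.LD.Defs

set_option autoImplicit false

/-!
Polynomials with few large monomials.
-/

namespace Pool.Agent.J4H64.LS

open DomAC0
open scoped Classical

/-- At most `n ^ (c log n)` monomials of `p` contain more than `c log n` different variables.
This holds if the degree of `p` is at most `c log n`, and if `p` has at most `n ^ (c log n)`
monomials, of any degree. -/
def Few {n : ℕ} (c : ℝ) (p : MvPolynomial (Pairs n) ℝ) : Prop :=
  ((p.support.filter fun m => c * Real.log n < (m.support.card : ℝ)).card : ℝ) ≤
    (n : ℝ) ^ (c * Real.log n)

end Pool.Agent.J4H64.LS
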