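import Mathlib

set_option autoImplicit false
set_option linter.unusedSectionVars false

/-!
A random permutation maps many disjoint pairs into a sparse relation only with tiny probability.
-/

namespace Pool.Agent.J4H64.LS

open Finset Equiv
open scoped Classical

variable {α : Type} [Fintype α] [DecidableEq α]

theorem step {R : α → α → Prop} {d : ℕ} (hR : ∀ a, (univ.filter fun b => R a b).card ≤ d)
    (P Q : Perm α → Prop) [DecidablePred P] [DecidablePred Q] (X : Finset α)
    (hP : ∀ π, P π → ∀ c, c ∉ X → ∀ c', c' ∉ X → P (π * swap c c'))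
    (a b : α) (hb : b ∉ X) (hab : b ≠ a) (hQ : ∀ π, Q π ↔ P π ∧ R (π a) (π b)) :
    (univ.filter Q).card * (Fintype.card α - (X.card + 1)) ≤ (univ.filter P).card * d := by
  refine card_mul_le_card_mul (fun π σ => ∃ c, c ∉ insert a X ∧ σ = π * swap b c) ?_ ?_
  · intro π hπ
    rw [mem_filter, hQ] at hπ
    obtain ⟨-, h1, h2⟩ := hπ
    have hinj : Function.Injective fun c => π * swap b c := by
      intro c c' h
      have h3 := mul_left_cancel h
      have h4 := congrArg (fun f : Perm α => f b) h3
      simpa using h4
    calc Fintype.card α - (X.card + 1) ≤ ((insert a X)ᶜ.image fun c => π * swap b c).card := by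
          rw [card_image_of_injective _ hinj, card_compl]
          exact Nat.sub_le_sub_left (card_insert_le _ _) _
      _ ≤ _ := by
          refine card_le_card fun σ hσ => ?_
          obtain ⟨c, hc, rfl⟩ := mem_image.1 hσ
          rw [mem_compl] at hc
          rw [mem_bipartiteAbove, mem_filter]
          exact ⟨⟨mem_univ _, hP π h1 b hb c (fun h => hc (mem_insert_of_mem h))⟩, c, hc, rfl⟩
  · intro σ hσ
    refine le_trans ?_ (hR (σ a))
    refine card_le_card_of_injOn (fun π => π b) ?_ ?_
    · intro π hπ
      rw [mem_coe, mem_bipartiteBelow, mem_filter, hQ] at hπ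
      obtain ⟨⟨-, h1, h2⟩, c, hc, rfl⟩ := hπ
      rw [mem_coe, mem_filter]
      refine ⟨mem_univ _, ?_⟩
      have h3 : (π * swap b c) a = π a := by
        rw [Perm.mul_apply, swap_apply_of_ne_of_ne hab.symm
          (by rintro rfl; exact hc (mem_insert_self _ _))]
      rw [h3]
      exact h2
    · intro π hπ π' hπ' h
      rw [mem_coe, mem_bipartiteBelow, mem_filter] at hπ hπ'
      obtain ⟨-, c, hc, h1⟩ := hπ
      obtain ⟨-, c', hc', h2⟩ := hπ'
      have h3 : π = σ * swap b c := by rw [h1, mul_assoc, swap_mul_self, mul_one]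
      have h4 : π' = σ * swap b c' := by rw [h2, mul_assoc, swap_mul_self, mul_one]
      simp only at h
      rw [h3, h4, Perm.mul_apply, Perm.mul_apply, swap_apply_left, swap_apply_left] at h
      have h5 := σ.injective h
      rw [h3, h4, h5]

theorem match_count {ε : Type} {R : α → α → Prop} {d : ℕ}
    (hR : ∀ a, (univ.filter fun b => R a b).card ≤ d) (x y : ε → α) (hxy : ∀ e, x e ≠ y e)
    (m : ℕ) (M : Finset ε)
    (hM : ∀ e ∈ M, ∀ f ∈ M, e ≠ f → y e ≠ x f ∧ y e ≠ y f) (hm : M.card ≤ m) :
    (univ.filter fun π : Perm α => ∀ e ∈ M, R (π (x e)) (π (y e))).card *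
      (Fintype.card α - 2 * m) ^ M.card ≤ (Fintype.card α).factorial * d ^ M.card := by
  induction M using Finset.induction_on with
  | empty =>
    simp only [card_empty, pow_zero, mul_one]
    refine (card_le_univ _).trans ?_
    rw [Fintype.card_perm]
  | insert e M he ih =>
    have ih' := ih (fun e' h1 f' h2 => hM e' (mem_insert_of_mem h1) f' (mem_insert_of_mem h2))
      (by rw [card_insert_of_notMem he] at hm; omega)
    rw [card_insert_of_notMem he] at hm ⊢
    have hX : (M.image x ∪ M.image y).card ≤ 2 * M.card := by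
      have h1 := card_union_le (M.image x) (M.image y)
      have h2 : (M.image x).card ≤ M.card := card_image_le
      have h3 : (M.image y).card ≤ M.card := card_image_le
      omega
    have hs := step hR (fun π : Perm α => ∀ f ∈ M, R (π (x f)) (π (y f)))
      (fun π : Perm α => ∀ f ∈ insert e M, R (π (x f)) (π (y f)))
      (M.image x ∪ M.image y) (by
        intro π hπ c hc c' hc' f hf
        have hx : x f ∈ M.image x ∪ M.image y := mem_union_left _ (mem_image_of_mem _ hf)
        have hy : y f ∈ M.image x ∪ M.image y := mem_union_right _ (mem_image_of_mem _ hf)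
        rw [Perm.mul_apply, Perm.mul_apply,
          swap_apply_of_ne_of_ne (by rintro rfl; exact hc hx) (by rintro rfl; exact hc' hx),
          swap_apply_of_ne_of_ne (by rintro rfl; exact hc hy) (by rintro rfl; exact hc' hy)]
        exact hπ f hf) (x e) (y e) (by
        intro h
        rcases mem_union.1 h with h | h
        · obtain ⟨f, hf, h⟩ := mem_image.1 h
          exact (hM e (mem_insert_self _ _) f (mem_insert_of_mem hf)
            (by rintro rfl; exact he hf)).1 h.symm
        · obtain ⟨f, hf, h⟩ := mem_image.1 h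
          exact (hM e (mem_insert_self _ _) f (mem_insert_of_mem hf)
            (by rintro rfl; exact he hf)).2 h.symm) (hxy e).symm (by
        intro π
        rw [forall_mem_insert, and_comm])
    calc _ * (Fintype.card α - 2 * m) ^ (M.card + 1)
        = (_ * (Fintype.card α - 2 * m)) * (Fintype.card α - 2 * m) ^ M.card := by
          rw [pow_succ]; ring
      _ ≤ ((univ.filter fun π : Perm α => ∀ f ∈ M, R (π (x f)) (π (y f))).card * d) *
          (Fintype.card α - 2 * m) ^ M.card := by
          refine Nat.mul_le_mul_right _ (le_trans (Nat.mul_le_mul_left _ ?_) hs)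
          omega
      _ = ((univ.filter fun π : Perm α => ∀ f ∈ M, R (π (x f)) (π (y f))).card *
          (Fintype.card α - 2 * m) ^ M.card) * d := by ring
      _ ≤ ((Fintype.card α).factorial * d ^ M.card) * d := Nat.mul_le_mul_right _ ih'
      _ = _ := by rw [pow_succ]; ring

theorem match_count' {ε : Type} {R : α → α → Prop} {d : ℕ}
    (hR : ∀ a, (univ.filter fun b => R a b).card ≤ d) (x y : ε → α) (hxy : ∀ e, x e ≠ y e)
    (m : ℕ) (M : Finset ε)
    (hM : ∀ e ∈ M, ∀ f ∈ M, e ≠ f → y e ≠ x f ∧ y e ≠ y f) (hm : M.card ≤ m)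
    (T : Finset (Perm α)) (hT : ∀ π ∈ T, ∀ e ∈ M, R (π (x e)) (π (y e))) :
    T.card * (Fintype.card α - 2 * m) ^ M.card ≤ (Fintype.card α).factorial * d ^ M.card := by
  refine le_trans (Nat.mul_le_mul_right _ (card_le_card fun π hπ => ?_))
    (match_count hR x y hxy m M hM hm)
  exact mem_filter.2 ⟨mem_univ _, hT π hπ⟩

end Pool.Agent.J4H64.LS
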