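import Pool.Agent.J4H64.VC.Main
import Pool.Agent.J4H64.LS.Match

set_option autoImplicit false
set_option linter.unusedSectionVars false

/-!
Sets of many pairs are missed by the edges after a suitable renaming of the vertices.
-/

namespace Pool.Agent.J4H64.LS

open Finset DomAC0 Pool.Agent.J4H64.VC
open scoped Classical

variable {n : ℕ}

/-- disjoint pairs -/
def Mat (M : Finset (Pairs n)) : Prop :=
  ∀ e ∈ M, ∀ f ∈ M, e ≠ f → (e.1.1 ≠ f.1.1 ∧ e.1.1 ≠ f.1.2) ∧ e.1.2 ≠ f.1.1 ∧ e.1.2 ≠ f.1.2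

theorem exists_mat {Δ : ℕ} {G : SimpleGraph (Fin n)} (hG : MaxDeg Δ G) (S : Finset (Pairs n))
    (hS : ∀ e ∈ S, G.Adj e.1.1 e.1.2) : ∃ M ⊆ S, Mat M ∧ S.card ≤ 2 * Δ * M.card := by
  obtain ⟨M, hM, hmax⟩ := exists_max_image (S.powerset.filter Mat) card
    ⟨∅, mem_filter.2 ⟨empty_mem_powerset _, fun e he => absurd he (notMem_empty _)⟩⟩
  rw [mem_filter, mem_powerset] at hM
  obtain ⟨hMS, hMm⟩ := hM
  refine ⟨M, hMS, hMm, ?_⟩
  obtain ⟨X, hX⟩ : ∃ X : Finset (Fin n),
      X = M.image (fun e => e.1.1) ∪ M.image (fun e => e.1.2) := ⟨_, rfl⟩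
  have hXc : X.card ≤ 2 * M.card := by
    rw [hX]
    have h1 := card_union_le (M.image (fun e : Pairs n => e.1.1)) (M.image (fun e => e.1.2))
    have h2 : (M.image (fun e : Pairs n => e.1.1)).card ≤ M.card := card_image_le
    have h3 : (M.image (fun e : Pairs n => e.1.2)).card ≤ M.card := card_image_le
    omega
  have htouch : ∀ e ∈ S, e.1.1 ∈ X ∨ e.1.2 ∈ X := by
    intro e he
    by_contra hcon
    push Not at hcon
    have key : ∀ f ∈ M, (e.1.1 ≠ f.1.1 ∧ e.1.1 ≠ f.1.2) ∧ e.1.2 ≠ f.1.1 ∧ e.1.2 ≠ f.1.2 := by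
      intro f hf
      have h2 : f.1.1 ∈ X := by
        rw [hX]
        exact mem_union_left _ (mem_image_of_mem (fun e : Pairs n => e.1.1) hf)
      have h3 : f.1.2 ∈ X := by
        rw [hX]
        exact mem_union_right _ (mem_image_of_mem (fun e : Pairs n => e.1.2) hf)
      refine ⟨⟨?_, ?_⟩, ?_, ?_⟩ <;> intro h
      · exact hcon.1 (h ▸ h2)
      · exact hcon.1 (h ▸ h3)
      · exact hcon.2 (h ▸ h2)
      · exact hcon.2 (h ▸ h3)
    have heM : e ∉ M := fun h => (key e h).1.1 rfl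
    have h1 : Mat (insert e M) := by
      intro a ha b hb hab
      rcases mem_insert.1 ha with ha' | ha' <;> rcases mem_insert.1 hb with hb' | hb'
      · exact absurd (ha'.trans hb'.symm) hab
      · rw [ha']
        exact key b hb'
      · rw [hb']
        have := key a ha'
        exact ⟨⟨this.1.1.symm, this.2.1.symm⟩, this.1.2.symm, this.2.2.symm⟩
      · exact hMm a ha' b hb' hab
    have h2 := hmax (insert e M) (mem_filter.2 ⟨mem_powerset.2 (insert_subset he hMS), h1⟩)
    rw [card_insert_of_notMem heM] at h2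
    omega
  have hdeg : ∀ v, (S.filter fun e => e.1.1 = v ∨ e.1.2 = v).card ≤ Δ := by
    intro v
    refine le_trans ?_ (hG v)
    refine card_le_card_of_injOn (fun e => if e.1.1 = v then e.1.2 else e.1.1) ?_ ?_
    · intro e he
      rw [mem_coe, mem_filter] at he
      rw [mem_coe, mem_filter]
      refine ⟨mem_univ _, ?_⟩
      have h1 := hS e he.1
      show G.Adj v (if e.1.1 = v then e.1.2 else e.1.1)
      by_cases h : e.1.1 = v
      · rw [if_pos h, ← h]
        exact h1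
      · have h2 := he.2.resolve_left h
        rw [if_neg h, ← h2]
        exact h1.symm
    · intro e he f hf h
      rw [mem_coe, mem_filter] at he hf
      have hlt := e.2
      have hlf := f.2
      simp only at h
      by_cases h1 : e.1.1 = v <;> by_cases h2 : f.1.1 = v
      · rw [if_pos h1, if_pos h2] at h
        exact Subtype.ext (Prod.ext (h1.trans h2.symm) h)
      · rw [if_pos h1, if_neg h2] at h
        have h3 := hf.2.resolve_left h2
        rw [h1, h] at hlt
        rw [h3] at hlf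
        exact absurd (hlt.trans hlf) (lt_irrefl _)
      · rw [if_neg h1, if_pos h2] at h
        have h3 := he.2.resolve_left h1
        rw [h3, h] at hlt
        rw [h2] at hlf
        exact absurd (hlt.trans hlf) (lt_irrefl _)
      · rw [if_neg h1, if_neg h2] at h
        exact Subtype.ext (Prod.ext h ((he.2.resolve_left h1).trans (hf.2.resolve_left h2).symm))
  calc S.card ≤ (X.biUnion fun v => S.filter fun e => e.1.1 = v ∨ e.1.2 = v).card := by
        refine card_le_card fun e he => ?_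
        rw [mem_biUnion]
        rcases htouch e he with h | h
        · exact ⟨_, h, mem_filter.2 ⟨he, Or.inl rfl⟩⟩
        · exact ⟨_, h, mem_filter.2 ⟨he, Or.inr rfl⟩⟩
    _ ≤ X.card * Δ := card_biUnion_le_card_mul _ _ _ fun v _ => hdeg v
    _ ≤ (2 * M.card) * Δ := Nat.mul_le_mul_right _ hXc
    _ = _ := by ring

section rel

variable {q : ℕ} (B : SimpleGraph (Fin q)) {P : Type} [Fintype P] (κ : Fin q × P ↪ Fin n)

/-- the types of `a` and `b` are adjacent in the base graph -/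
def Rel (a b : Fin n) : Prop := ∃ u v p p', κ (u, p) = a ∧ κ (v, p') = b ∧ B.Adj u v

theorem rel_card {Δ : ℕ}
    (hΔ : ∀ v, ∀ S : Finset (Fin q), (∀ w ∈ S, B.Adj v w) → S.card ≤ Δ) (a : Fin n) :
    (univ.filter fun b => Rel B κ a b).card ≤ Δ * Fintype.card P := by
  by_cases h : ∃ l, κ l = a
  · obtain ⟨⟨u, p⟩, rfl⟩ := h
    calc _ ≤ (((univ.filter fun v => B.Adj u v) ×ˢ (univ : Finset P)).image κ).card := by
          refine card_le_card fun b hb => ?_
          obtain ⟨u', v, p1, p', h1, h2, h3⟩ := (mem_filter.1 hb).2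
          have h4 := κ.injective h1
          rw [Prod.mk.injEq] at h4
          rw [mem_image]
          refine ⟨(v, p'), ?_, h2⟩
          rw [mem_product, mem_filter]
          exact ⟨⟨mem_univ _, h4.1 ▸ h3⟩, mem_univ _⟩
      _ ≤ _ := card_image_le
      _ = (univ.filter fun v => B.Adj u v).card * (univ : Finset P).card := card_product _ _
      _ ≤ _ := by
          rw [card_univ]
          exact Nat.mul_le_mul_right _ (hΔ u _ fun w hw => (mem_filter.1 hw).2)
  · have h0 : (univ.filter fun b => Rel B κ a b) = ∅ := by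
      rw [filter_eq_empty_iff]
      rintro b - ⟨u, v, p, p', h1, -⟩
      exact h ⟨_, h1⟩
    rw [h0, card_empty]
    exact Nat.zero_le _

variable {B}

/-- the naming after a permutation of the names -/
def tw (π : Equiv.Perm (Fin n)) : Fin q × P ↪ Fin n := κ.trans π.symm.toEmbedding

theorem adj_rel (π : Equiv.Perm (Fin n)) (ω : Ed B → Equiv.Perm P) {a b : Fin n}
    (h : (gr B (tw κ π) ω).Adj a b) : Rel B κ (π a) (π b) := by
  rw [gr_adj] at h
  obtain ⟨e, x, h | h⟩ := h
  · exact ⟨_, _, _, _, (Equiv.symm_apply_eq π).1 h.1, (Equiv.symm_apply_eq π).1 h.2, e.2.2⟩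
  · exact ⟨_, _, _, _, (Equiv.symm_apply_eq π).1 h.2, (Equiv.symm_apply_eq π).1 h.1, e.2.2.symm⟩

theorem exists_perm {Δ g m d : ℕ} (hd : ∀ a, (univ.filter fun b => Rel B κ a b).card ≤ d)
    (𝓢 : Finset (Finset (Pairs n))) (hc : 𝓢.card * d ^ m < (n - 2 * m) ^ m)
    (hm : ∀ t, g < 2 * Δ * t → m ≤ t) :
    ∃ π : Equiv.Perm (Fin n), ∀ S ∈ 𝓢, g < S.card →
      (∃ G : SimpleGraph (Fin n), MaxDeg Δ G ∧ ∀ e ∈ S, G.Adj e.1.1 e.1.2) →
      ¬ ∀ e ∈ S, Rel B κ (π e.1.1) (π e.1.2) := by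
  by_contra hcon
  push Not at hcon
  let bad : Finset (Pairs n) → Finset (Equiv.Perm (Fin n)) := fun S =>
    univ.filter fun π => (g < S.card ∧
      (∃ G : SimpleGraph (Fin n), MaxDeg Δ G ∧ ∀ e ∈ S, G.Adj e.1.1 e.1.2)) ∧
      ∀ e ∈ S, Rel B κ (π e.1.1) (π e.1.2)
  have h1 : ∀ S, (bad S).card * (n - 2 * m) ^ m ≤ n.factorial * d ^ m := by
    intro S
    by_cases h : g < S.card ∧
      ∃ G : SimpleGraph (Fin n), MaxDeg Δ G ∧ ∀ e ∈ S, G.Adj e.1.1 e.1.2
    · obtain ⟨h2, G, h3, h4⟩ := h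
      obtain ⟨M, h5, h6, h7⟩ := exists_mat h3 S h4
      obtain ⟨M', h8, h9⟩ := exists_subset_card_eq (hm M.card (h2.trans_le h7))
      have h10 := match_count' hd (fun e : Pairs n => e.1.1) (fun e => e.1.2)
        (fun e => ne_of_lt e.2) m M' (fun e he f hf hef => (h6 e (h8 he) f (h8 hf) hef).2) h9.le
        (bad S) (fun π hπ e he => (mem_filter.1 hπ).2.2 e (h5 (h8 he)))
      rwa [h9, Fintype.card_fin] at h10
    · have h0 : bad S = ∅ := by
        rw [filter_eq_empty_iff]
        intro π _ h'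
        exact h h'.1
      rw [h0, card_empty, zero_mul]
      exact Nat.zero_le _
  have h2 : (univ : Finset (Equiv.Perm (Fin n))) ⊆ 𝓢.biUnion bad := by
    intro π _
    obtain ⟨S, hS, h3, h4, h5⟩ := hcon π
    exact mem_biUnion.2 ⟨S, hS, mem_filter.2 ⟨mem_univ _, ⟨h3, h4⟩, h5⟩⟩
  have h3 : n.factorial ≤ ∑ S ∈ 𝓢, (bad S).card := by
    have h4 := (card_le_card h2).trans card_biUnion_le
    rwa [card_univ, Fintype.card_perm, Fintype.card_fin] at h4
  have h4 : n.factorial * (n - 2 * m) ^ m ≤ 𝓢.card * (n.factorial * d ^ m) := by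
    calc n.factorial * (n - 2 * m) ^ m ≤ (∑ S ∈ 𝓢, (bad S).card) * (n - 2 * m) ^ m :=
          Nat.mul_le_mul_right _ h3
      _ = ∑ S ∈ 𝓢, (bad S).card * (n - 2 * m) ^ m := sum_mul _ _ _
      _ ≤ ∑ _S ∈ 𝓢, n.factorial * d ^ m := sum_le_sum fun S _ => h1 S
      _ = _ := by rw [sum_const, smul_eq_mul]
  have h5 : n.factorial * (𝓢.card * d ^ m) < n.factorial * (n - 2 * m) ^ m :=
    Nat.mul_lt_mul_of_pos_left hc (Nat.factorial_pos n)
  have h6 : 𝓢.card * (n.factorial * d ^ m) = n.factorial * (𝓢.card * d ^ m) := by ring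
  omega

end rel

end Pool.Agent.J4H64.LS
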