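import Pool.Agent.J4H64.LD.Moments
import Pool.Agent.J4H64.LS.Base
import Pool.Agent.J4H64.LS.Sets

set_option autoImplicit false
set_option linter.unusedSectionVars false

/-!
Two random graphs on `n` vertices whose edge sets contain each set of a given family of at most
`n ^ (c log n)` sets of pairs with the same probability.
-/

namespace Pool.Agent.J4H64.LS

open Finset DomAC0 Pool.Agent.J4H64.VC Pool.Agent.J4H64.LD
open scoped Classical

theorem family (ε : ℝ) (hε : 0 < ε) : ∃ (Δ : ℕ) (c : ℝ), 0 < c ∧ ∃ n₀ : ℕ, ∀ n ≥ n₀,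
    ∀ 𝓢 : Finset (Finset (Pairs n)), (𝓢.card : ℝ) ≤ Real.exp (c * Real.log n ^ 2) →
    ∃ (Ω : Type) (_ : Fintype Ω) (_ : Nonempty Ω) (G₀ G₁ : Ω → SimpleGraph (Fin n)),
      (∀ ω, MaxDeg Δ (G₀ ω) ∧ MaxDeg Δ (G₁ ω)) ∧
      (∀ ω, (G₁ ω).Colorable 2) ∧
      (∀ ω (I : Finset (Fin n)), (∀ u ∈ I, ∀ v ∈ I, ¬ (G₀ ω).Adj u v) →
        (I.card : ℝ) ≤ ε * n) ∧
      ∀ S : Finset (Pairs n), (S ∈ 𝓢 ∨ (S.card : ℝ) ≤ c * Real.log n) →
        (univ.filter fun ω => ∀ e ∈ S, (G₀ ω).Adj e.1.1 e.1.2).card =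
          (univ.filter fun ω => ∀ e ∈ S, (G₁ ω).Adj e.1.1 e.1.2).card := by
  obtain ⟨k0, hk0⟩ := exists_nat_gt (2 / ε)
  have hk0' : 1 ≤ k0 := by
    have h1 : (0 : ℝ) < 2 / ε := by positivity
    have h2 : (0 : ℝ) < k0 := h1.trans hk0
    exact_mod_cast h2
  obtain ⟨Δ, hΔ⟩ := Base.exists_base k0 hk0'
  obtain ⟨T, hT⟩ : ∃ T, T = 2 * k0 * (8 * k0 + 1) := ⟨_, rfl⟩
  rw [← hT] at hΔ
  have hT18 : 18 ≤ T := by rw [hT]; nlinarith
  have hTR : (18 : ℝ) ≤ T := by exact_mod_cast hT18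
  have hT0 : (0 : ℝ) < T := by linarith
  have hlogT : 0 < Real.log T := Real.log_pos (by linarith)
  obtain ⟨g1, hg1⟩ := pow_unbounded_of_one_lt (4 * (T : ℝ) ^ 7 / ε)
    (show (1 : ℝ) < (T : ℝ) ^ 2 by nlinarith)
  obtain ⟨D, hD⟩ : ∃ D, D = Δ + 1 := ⟨_, rfl⟩
  have hD1 : (1 : ℝ) ≤ D := by rw [hD]; push_cast; linarith [(Nat.cast_nonneg Δ : (0 : ℝ) ≤ Δ)]
  have hDΔ : (Δ : ℝ) ≤ D := by rw [hD]; push_cast; linarith
  obtain ⟨g2, hg2⟩ := pow_unbounded_of_one_lt ((2 * (D : ℝ)) * (2 * D))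
    (show (1 : ℝ) < (T : ℝ) by linarith)
  obtain ⟨c, hc⟩ : ∃ c, c = 1 / (512 * (D : ℝ) * Real.log T) := ⟨_, rfl⟩
  have hc0 : 0 < c := by rw [hc]; positivity
  refine ⟨Δ, c, hc0, (T ^ 4) ^ (g1 + g2 + 1), fun n hn 𝓢 h𝓢 => ?_⟩
  have hT4 : 1 < T ^ 4 := Nat.one_lt_pow (by norm_num) (by omega)
  have hn1 : 1 ≤ n := le_trans (Nat.one_le_pow _ _ (by omega)) hn
  obtain ⟨g, hg⟩ : ∃ g, g = Nat.log (T ^ 4) n := ⟨_, rfl⟩
  have hgg : g1 + g2 + 1 ≤ g := by
    rw [hg]
    exact Nat.le_log_of_pow_le hT4 hn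
  have hg1' : (1 : ℝ) ≤ g := by exact_mod_cast (by omega : 1 ≤ g)
  have hgn : (T ^ 4) ^ g ≤ n := by
    rw [hg]
    exact Nat.pow_log_le_self _ (by omega)
  have hgn' : n < (T ^ 4) ^ (g + 1) := by
    rw [hg]
    exact Nat.lt_pow_succ_log_self hT4 n
  obtain ⟨q, B, hq, hql, hdeg, hgirth, hind⟩ := hΔ g
  have hTr := tree_of_girth hgirth
  have hq1 : 1 ≤ q := by
    have := hind ∅ (by simp)
    omega
  -- the number of copies
  obtain ⟨N, hN⟩ : ∃ N, N = n / (q * 2) := ⟨_, rfl⟩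
  have hc1 : 1 ≤ q * 2 := by omega
  have hNc : N * (q * 2) ≤ n := by rw [hN]; exact Nat.div_mul_le_self n _
  have hNc' : n < (N + 1) * (q * 2) := by
    rw [hN, mul_comm]; exact Nat.lt_mul_div_succ n hc1
  have hnR1 : (1 : ℝ) ≤ n := by exact_mod_cast hn1
  have hlogn : Real.log n < 4 * (g + 1) * Real.log T := by
    have h2 : (n : ℝ) < ((T : ℝ) ^ 4) ^ (g + 1) := by exact_mod_cast hgn'
    have h3 := Real.log_lt_log (by linarith) h2
    rw [← pow_mul, Real.log_pow] at h3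
    push_cast at h3
    linarith
  have hlogn0 : 0 ≤ Real.log n := Real.log_nonneg hnR1
  -- `q` is small
  have hqn : ((q * 2 : ℕ) : ℝ) ≤ ε / 2 * n := by
    have h1 : ((q : ℕ) : ℝ) ≤ (T : ℝ) ^ (2 * g + 7) := by exact_mod_cast hq
    have h2 : ((T : ℝ) ^ 4) ^ g ≤ n := by exact_mod_cast hgn
    have h3 : ((T : ℝ) ^ 2) ^ g1 ≤ ((T : ℝ) ^ 2) ^ g :=
      pow_le_pow_right₀ (by nlinarith) (by omega)
    have h4 : 4 * (T : ℝ) ^ 7 / ε < ((T : ℝ) ^ 2) ^ g := lt_of_lt_of_le hg1 h3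
    rw [div_lt_iff₀ hε] at h4
    have h5 : (T : ℝ) ^ (2 * g + 7) = ((T : ℝ) ^ 2) ^ g * (T : ℝ) ^ 7 := by
      rw [pow_add, pow_mul]
    have h6 : ((T : ℝ) ^ 4) ^ g = ((T : ℝ) ^ 2) ^ g * ((T : ℝ) ^ 2) ^ g := by
      rw [← mul_pow]
      congr 1
      ring
    have h7 : (0 : ℝ) < ((T : ℝ) ^ 2) ^ g := by positivity
    push_cast
    rw [h5] at h1
    rw [h6] at h2
    calc (q : ℝ) * 2 ≤ (((T : ℝ) ^ 2) ^ g * (T : ℝ) ^ 7) * 2 :=
          mul_le_mul_of_nonneg_right h1 (by norm_num)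
      _ = ((T : ℝ) ^ 2) ^ g * (4 * (T : ℝ) ^ 7) / 2 := by ring
      _ ≤ ((T : ℝ) ^ 2) ^ g * (((T : ℝ) ^ 2) ^ g * ε) / 2 := by
          have := mul_le_mul_of_nonneg_left h4.le h7.le
          linarith
      _ = ε / 2 * (((T : ℝ) ^ 2) ^ g * ((T : ℝ) ^ 2) ^ g) := by ring
      _ ≤ ε / 2 * n := mul_le_mul_of_nonneg_left h2 (by positivity)
  -- the embedding
  have hcps : Fintype.card (Ps (Fin 1) (Fin N)) = N * 2 := by
    rw [card_ps, Fintype.card_fin, Fintype.card_fin, one_mul]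
  have hcard : Fintype.card (Fin q × Ps (Fin 1) (Fin N)) = N * (q * 2) := by
    rw [Fintype.card_prod, hcps, Fintype.card_fin]
    ring
  obtain ⟨κ₀⟩ : Nonempty (Fin q × Ps (Fin 1) (Fin N) ↪ Fin n) :=
    Function.Embedding.nonempty_of_card_le (by rw [hcard, Fintype.card_fin]; exact hNc)
  -- the size of the matchings
  obtain ⟨m, hm⟩ : ∃ m, m = g / (2 * D) + 1 := ⟨_, rfl⟩
  have hD0 : 0 < 2 * D := by omega
  have hm1 : ∀ t, g < 2 * Δ * t → m ≤ t := by
    intro t ht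
    rw [hm]
    have h1 : g < (2 * D) * t := lt_of_lt_of_le ht (Nat.mul_le_mul_right _ (by omega))
    exact Nat.div_lt_of_lt_mul h1
  have hm2 : g < 2 * D * m := by rw [hm]; exact Nat.lt_mul_div_succ g hD0
  have hm3 : m ≤ g + 1 := by rw [hm]; exact Nat.add_le_add_right (Nat.div_le_self _ _) 1
  have hn4 : 4 * m ≤ n := by
    have h1 : 16 ^ g ≤ (T ^ 4) ^ g := Nat.pow_le_pow_left (by
      calc 16 ≤ 18 ^ 1 := by norm_num
        _ ≤ T ^ 1 := Nat.pow_le_pow_left hT18 1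
        _ ≤ T ^ 4 := Nat.pow_le_pow_right (by omega) (by norm_num)) g
    have h2 : (16 : ℕ) ^ g = 8 ^ g * 2 ^ g := by rw [← mul_pow]; norm_num
    have h3 : g + 1 ≤ 2 ^ g := Nat.lt_two_pow_self
    have h4 : 8 ≤ 8 ^ g := Nat.le_self_pow (by omega) 8
    have h5 : 8 * (g + 1) ≤ 8 ^ g * 2 ^ g := Nat.mul_le_mul h4 h3
    omega
  have hcount : 𝓢.card * (Δ * Fintype.card (Ps (Fin 1) (Fin N))) ^ m < (n - 2 * m) ^ m := by
    obtain ⟨d, hd⟩ : ∃ d, d = Δ * Fintype.card (Ps (Fin 1) (Fin N)) := ⟨_, rfl⟩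
    obtain ⟨A, hA⟩ : ∃ A : ℝ, A = ((n - 2 * m : ℕ) : ℝ) := ⟨_, rfl⟩
    rw [← hd]
    have hA1 : (n : ℝ) ≤ 2 * A := by
      rw [hA, Nat.cast_sub (by omega)]
      push_cast
      have : (4 * m : ℝ) ≤ n := by exact_mod_cast hn4
      linarith
    have hA0 : 0 < A := by linarith
    obtain ⟨E, hE⟩ : ∃ E : ℝ, E = Real.exp (g * Real.log T / 2) := ⟨_, rfl⟩
    have hE0 : 0 < E := by rw [hE]; exact Real.exp_pos _
    have hE2 : E * E = (T : ℝ) ^ g := by
      rw [hE, ← Real.exp_add, add_halves, Real.exp_nat_mul, Real.exp_log hT0]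
    have hE3 : 2 * (D : ℝ) ≤ E := by
      by_contra h
      push Not at h
      have h1 : E * E < (2 * (D : ℝ)) * (2 * D) := mul_self_lt_mul_self hE0.le h
      have h2 : (T : ℝ) ^ g2 ≤ (T : ℝ) ^ g := pow_le_pow_right₀ (by linarith) (by omega)
      rw [hE2] at h1
      linarith
    have hqR : (T : ℝ) ^ g ≤ q := by exact_mod_cast hql
    have hdE : (d : ℝ) * E ≤ A := by
      have h1 : (d : ℝ) * E * E ≤ A * E := by
        rw [mul_assoc, hE2]
        calc (d : ℝ) * (T : ℝ) ^ g ≤ d * q := mul_le_mul_of_nonneg_left hqR (Nat.cast_nonneg _)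
          _ = Δ * ((N * (q * 2) : ℕ) : ℝ) := by
              rw [hd, hcps]
              push_cast
              ring
          _ ≤ Δ * n := mul_le_mul_of_nonneg_left (by exact_mod_cast hNc) (Nat.cast_nonneg _)
          _ ≤ D * (2 * A) := mul_le_mul hDΔ hA1 (Nat.cast_nonneg _) (by linarith)
          _ = A * (2 * D) := by ring
          _ ≤ A * E := mul_le_mul_of_nonneg_left hE3 hA0.le
      exact le_of_mul_le_mul_right h1 hE0
    have hpow : (d : ℝ) ^ m * E ^ m ≤ A ^ m := by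
      rw [← mul_pow]
      exact pow_le_pow_left₀ (mul_nonneg (Nat.cast_nonneg _) hE0.le) hdE m
    have hlt : Real.exp (c * Real.log n ^ 2) < E ^ m := by
      rw [hE, ← Real.exp_nat_mul]
      apply Real.exp_lt_exp.2
      have h1 : Real.log n ≤ 8 * g * Real.log T := by nlinarith
      have h2 : Real.log n ^ 2 ≤ (8 * g * Real.log T) ^ 2 := pow_le_pow_left₀ hlogn0 h1 2
      have h3 : c * Real.log n ^ 2 ≤ c * (8 * g * Real.log T) ^ 2 :=
        mul_le_mul_of_nonneg_left h2 hc0.le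
      have h4 : c * (8 * g * Real.log T) ^ 2 = g * (g * Real.log T / 2) / (4 * D) := by
        rw [hc]
        field_simp
        ring
      have h5 : (g : ℝ) < 2 * D * m := by exact_mod_cast hm2
      have h6 : 0 < g * Real.log T / 2 := by positivity
      have h7 : g * (g * Real.log T / 2) / (4 * D) < m * (g * Real.log T / 2) := by
        rw [div_lt_iff₀ (by positivity)]
        have h8 : (g : ℝ) * (g * Real.log T / 2) < (2 * D * m) * (g * Real.log T / 2) :=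
          mul_lt_mul_of_pos_right h5 h6
        have h9 : (0 : ℝ) ≤ m * D * (g * Real.log T / 2) := by positivity
        nlinarith
      linarith
    have hfin : (𝓢.card : ℝ) * (d : ℝ) ^ m < A ^ m := by
      rcases (pow_nonneg (Nat.cast_nonneg (α := ℝ) d) m).eq_or_lt with h0 | h0
      · rw [← h0, mul_zero]
        positivity
      · calc (𝓢.card : ℝ) * (d : ℝ) ^ m < E ^ m * (d : ℝ) ^ m :=
              mul_lt_mul_of_pos_right (h𝓢.trans_lt hlt) h0
          _ = (d : ℝ) ^ m * E ^ m := mul_comm _ _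
          _ ≤ A ^ m := hpow
    rw [hA] at hfin
    exact_mod_cast hfin
  obtain ⟨π, hπ⟩ := exists_perm κ₀ (rel_card B κ₀ hdeg) 𝓢 hcount hm1
  obtain ⟨κ, hκ⟩ : ∃ κ, κ = tw κ₀ π := ⟨_, rfl⟩
  have hmax₀ : ∀ y, MaxDeg Δ (gr B κ (mk (sr B) (tg B) (fun _ => false) y)) :=
    fun y v => degree_le κ (deg_ed hdeg) _ v
  have hmax₁ : ∀ y, MaxDeg Δ (gr B κ (mk (sr B) (tg B) (fun _ => true) y)) :=
    fun y v => degree_le κ (deg_ed hdeg) _ v
  refine ⟨Fin q → Equiv.Perm (Ps (Fin 1) (Fin N)), inferInstance, ⟨1⟩,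
    fun y => gr B κ (mk (sr B) (tg B) (fun _ => false) y),
    fun y => gr B κ (mk (sr B) (tg B) (fun _ => true) y), fun y => ⟨hmax₀ y, hmax₁ y⟩,
    fun y => colorable_one κ y, ?_, ?_⟩
  · -- independent sets
    intro y I hI
    have hα : ∀ I : Finset (Fin q), (∀ u ∈ I, ∀ v ∈ I, ¬ B.Adj u v) → I.card ≤ q / k0 := by
      intro I hI
      rw [Nat.le_div_iff_mul_le hk0', mul_comm]
      exact (hind I hI).le
    have h1 := cover_zero κ hα y Iᶜ (by
      intro u v huv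
      by_contra hcon
      push Not at hcon
      rw [mem_compl, mem_compl, not_not, not_not] at hcon
      exact hI u hcon.1 v hcon.2 huv)
    rw [card_compl, Fintype.card_fin, hcps] at h1
    have h2 : I.card ≤ n := (card_le_univ I).trans (by rw [Fintype.card_fin])
    have h3 : q / k0 ≤ q := Nat.div_le_self _ _
    have h4 : ((q / k0 : ℕ) : ℝ) ≤ q / k0 := Nat.cast_div_le
    have h5 : ((q : ℝ) - (q / k0 : ℕ)) * (N * 2) ≤ n - I.card := by
      have h6 : (((q - q / k0) * (N * 2) : ℕ) : ℝ) ≤ ((n - I.card : ℕ) : ℝ) := by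
        exact_mod_cast h1
      rw [Nat.cast_sub h2] at h6
      push_cast [Nat.cast_sub h3] at h6
      exact h6
    have h7 : (n : ℝ) < (N + 1) * (q * 2) := by exact_mod_cast hNc'
    have h8 : (N : ℝ) * (q * 2) ≤ n := by exact_mod_cast hNc
    have hk0R : (0 : ℝ) < k0 := by exact_mod_cast hk0'
    have h9 : ((q / k0 : ℕ) : ℝ) * (N * 2) ≤ n / k0 := by
      calc ((q / k0 : ℕ) : ℝ) * (N * 2) ≤ (q / k0) * (N * 2) := by gcongr
        _ = (N * (q * 2)) / k0 := by ring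
        _ ≤ n / k0 := by gcongr
    have h10 : (n : ℝ) / k0 ≤ ε / 2 * n := by
      rw [div_le_iff₀ hk0R]
      have h11 : 2 / ε * (ε / 2) = 1 := by field_simp
      have h12 : 1 ≤ k0 * (ε / 2) := by
        rw [← h11]
        exact mul_le_mul_of_nonneg_right hk0.le (by positivity)
      have h13 : (0 : ℝ) ≤ n := Nat.cast_nonneg n
      nlinarith
    push_cast at hqn
    nlinarith
  · -- sets of pairs
    intro S hS
    by_cases hSg : S.card ≤ g
    · exact adj_eq κ hTr S hSg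
    · push Not at hSg
      have hS' : S ∈ 𝓢 := by
        rcases hS with hS | hS
        · exact hS
        · exfalso
          have h1 : (g : ℝ) + 1 ≤ S.card := by exact_mod_cast hSg
          have h2 : c * Real.log n ≤ g / 2 := by
            have h3 : Real.log n ≤ 8 * g * Real.log T := by nlinarith
            have h4 : c * Real.log n ≤ c * (8 * g * Real.log T) :=
              mul_le_mul_of_nonneg_left h3 hc0.le
            have h5 : c * (8 * g * Real.log T) = g / (64 * D) := by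
              rw [hc]
              field_simp
              ring
            have h6 : (g : ℝ) / (64 * D) ≤ g / 2 :=
              div_le_div_of_nonneg_left (by linarith) (by norm_num) (by linarith)
            linarith
          linarith
      have key : ∀ ω : Ed B → Equiv.Perm (Ps (Fin 1) (Fin N)), MaxDeg Δ (gr B κ ω) →
          ¬ ∀ e ∈ S, (gr B κ ω).Adj e.1.1 e.1.2 := by
        intro ω hω hcon
        refine hπ S hS' hSg ⟨_, hω, hcon⟩ fun e he => ?_
        have h1 := hcon e he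
        rw [hκ] at h1
        exact adj_rel κ₀ π ω h1
      rw [filter_false_of_mem fun y _ => key _ (hmax₀ y),
        filter_false_of_mem fun y _ => key _ (hmax₁ y)]

end Pool.Agent.J4H64.LS
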