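import Pool.Agent.J4H64.LD.Defs

set_option autoImplicit false
set_option linter.unusedSectionVars false

/-!
Graphs without large independent sets have odd closed walks of logarithmic length.
-/

namespace Pool.Agent.J4H64.LS

open Finset DomAC0 Pool.Agent.J4H64.VC Pool.Agent.J4H64.LD
open scoped Classical

variable {n : ℕ}

/-- the vertices reached from `v` inside `W` by `j` steps -/
noncomputable def lay (G : SimpleGraph (Fin n)) (W : Finset (Fin n)) (v : Fin n) :
    ℕ → Finset (Fin n)
  | 0 => {v}
  | j + 1 => W.filter fun w => ∃ u ∈ lay G W v j, G.Adj u w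

variable {G : SimpleGraph (Fin n)}

theorem lay_walk (W : Finset (Fin n)) (v : Fin n) (j : ℕ) :
    ∀ w ∈ lay G W v j, ∃ p : G.Walk v w, p.length = j := by
  induction j with
  | zero =>
    intro w hw
    have h1 : w = v := mem_singleton.1 hw
    subst h1
    exact ⟨SimpleGraph.Walk.nil, rfl⟩
  | succ j ih =>
    intro w hw
    obtain ⟨-, u, hu, h⟩ := mem_filter.1 hw
    obtain ⟨p, hp⟩ := ih u hu
    exact ⟨p.concat h, by rw [SimpleGraph.Walk.length_concat, hp]⟩

theorem ext_walk {v : Fin n} (p : G.Walk v v) (hp : 1 ≤ p.length) (t : ℕ) :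
    ∃ p' : G.Walk v v, p'.length = p.length + 2 * t := by
  have h1 : ∃ u, G.Adj v u := by
    cases p with
    | nil => simp at hp
    | cons h q => exact ⟨_, h⟩
  obtain ⟨u, h⟩ := h1
  induction t with
  | zero => exact ⟨p, rfl⟩
  | succ t ih =>
    obtain ⟨p', hp'⟩ := ih
    refine ⟨SimpleGraph.Walk.cons h (SimpleGraph.Walk.cons h.symm p'), ?_⟩
    rw [SimpleGraph.Walk.length_cons, SimpleGraph.Walk.length_cons, hp']
    ring

theorem lay_indep {r : ℕ} (hno : ∀ (v : Fin n) (p : G.Walk v v), p.length ≠ 2 * r + 1)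
    (W : Finset (Fin n)) (v : Fin n) (j : ℕ) (hj : j ≤ r) :
    ∀ u ∈ lay G W v j, ∀ w ∈ lay G W v j, ¬ G.Adj u w := by
  intro u hu w hw h
  obtain ⟨p, hp⟩ := lay_walk W v j u hu
  obtain ⟨p', hp'⟩ := lay_walk W v j w hw
  have h1 : ((p.concat h).append p'.reverse).length = 2 * j + 1 := by
    rw [SimpleGraph.Walk.length_append, SimpleGraph.Walk.length_concat,
      SimpleGraph.Walk.length_reverse, hp, hp']
    ring
  obtain ⟨p'', h2⟩ := ext_walk ((p.concat h).append p'.reverse) (by omega) (r - j)
  refine hno v p'' ?_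
  rw [h2, h1]
  omega

theorem exists_step (W : Finset (Fin n)) (v : Fin n) (δ : ℝ) (hδ : 0 < δ) (r : ℕ) :
    (∃ j < r, ((lay G W v (j + 1)).card : ℝ) ≤ (1 + δ) * (lay G W v j).card ∧
      1 ≤ (lay G W v j).card) ∨ (1 + δ) ^ r ≤ ((lay G W v r).card : ℝ) := by
  induction r with
  | zero =>
    right
    have h1 : (lay G W v 0).card = 1 := card_singleton v
    rw [h1]
    simp
  | succ r ih =>
    rcases ih with ⟨j, hj, h⟩ | ih
    · exact Or.inl ⟨j, by omega, h⟩
    · by_cases h : ((lay G W v (r + 1)).card : ℝ) ≤ (1 + δ) * (lay G W v r).card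
      · left
        refine ⟨r, by omega, h, ?_⟩
        have h1 : (1 : ℝ) ≤ (1 + δ) ^ r := one_le_pow₀ (by linarith)
        exact_mod_cast h1.trans ih
      · right
        push Not at h
        rw [pow_succ, mul_comm]
        exact (mul_le_mul_of_nonneg_left ih (by linarith)).trans h.le

theorem exists_indep {r : ℕ} (hno : ∀ (v : Fin n) (p : G.Walk v v), p.length ≠ 2 * r + 1)
    (δ : ℝ) (hδ : 0 < δ) (hr : (n : ℝ) < (1 + δ) ^ r) (m : ℕ) :
    ∀ W : Finset (Fin n), W.card ≤ m → ∃ I ⊆ W, (∀ u ∈ I, ∀ w ∈ I, ¬ G.Adj u w) ∧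
      (W.card : ℝ) ≤ (2 + δ) * I.card := by
  induction m with
  | zero =>
    intro W hW
    have h1 : W = ∅ := card_eq_zero.1 (by omega)
    subst h1
    exact ⟨∅, Subset.refl _, fun u hu => absurd hu (notMem_empty _), by simp⟩
  | succ m ih =>
    intro W hW
    rcases W.eq_empty_or_nonempty with rfl | ⟨v, hv⟩
    · exact ⟨∅, Subset.refl _, fun u hu => absurd hu (notMem_empty _), by simp⟩
    · have hsub : ∀ j, lay G W v j ⊆ W := by
        intro j
        cases j with
        | zero => exact singleton_subset_iff.2 hv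
        | succ j => exact filter_subset _ _
      rcases exists_step (G := G) W v δ hδ r with ⟨j, hj, h1, h2⟩ | h1
      · obtain ⟨S, hS⟩ : ∃ S, S = lay G W v j := ⟨_, rfl⟩
        obtain ⟨T, hT⟩ : ∃ T, T = lay G W v (j + 1) := ⟨_, rfl⟩
        have hSW : S ⊆ W := hS ▸ hsub j
        have hind := lay_indep hno W v j hj.le
        rw [← hS] at h1 h2 hind
        rw [← hT] at h1
        have hST : S.card ≤ (S ∪ T).card := card_le_card subset_union_left
        have hTW : T ⊆ W := hT ▸ hsub (j + 1)
        have h3 : (W \ (S ∪ T)).card + (S ∪ T).card = W.card :=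
          card_sdiff_add_card_eq_card (union_subset hSW hTW)
        obtain ⟨I, hI, hIi, hIc⟩ := ih (W \ (S ∪ T)) (by omega)
        have hdis : Disjoint S I := by
          rw [disjoint_left]
          intro u hu hu'
          exact (mem_sdiff.1 (hI hu')).2 (mem_union_left _ hu)
        have hcross : ∀ u ∈ S, ∀ w ∈ I, ¬ G.Adj u w := by
          intro u hu w hw h
          have h4 := mem_sdiff.1 (hI hw)
          refine h4.2 (mem_union_right _ ?_)
          rw [hT]
          exact mem_filter.2 ⟨h4.1, u, hS ▸ hu, h⟩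
        refine ⟨S ∪ I, union_subset hSW (hI.trans sdiff_subset), ?_, ?_⟩
        · intro u hu w hw
          rcases mem_union.1 hu with hu | hu <;> rcases mem_union.1 hw with hw | hw
          · exact hind u hu w hw
          · exact hcross u hu w hw
          · exact fun h => hcross w hw u hu h.symm
          · exact hIi u hu w hw
        · rw [card_union_of_disjoint hdis]
          have h4 : ((S ∪ T).card : ℝ) ≤ S.card + T.card := by exact_mod_cast card_union_le _ _
          have h5 : (W.card : ℝ) = (W \ (S ∪ T)).card + (S ∪ T).card := by exact_mod_cast h3.symm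
          push_cast
          linarith
      · exfalso
        have h2 : (lay G W v r).card ≤ n := (card_le_univ _).trans (by rw [Fintype.card_fin])
        have h3 : ((lay G W v r).card : ℝ) ≤ n := by exact_mod_cast h2
        linarith

/-- Graphs without large independent sets have odd closed walks of logarithmic length. -/
theorem exists_walk {ε δ : ℝ} (hδ : 0 < δ) (hε : (2 + δ) * ε < 1) (hn : 1 ≤ n) {r : ℕ}
    (hr : (n : ℝ) < (1 + δ) ^ r) (hG : SmallInd ε G) :
    ∃ (v : Fin n) (p : G.Walk v v), p.length = 2 * r + 1 := by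
  by_contra hno
  push Not at hno
  obtain ⟨I, -, hI, hc⟩ := exists_indep hno δ hδ hr n univ (by rw [card_univ, Fintype.card_fin])
  rw [card_univ, Fintype.card_fin] at hc
  have h1 := hG I hI
  have h2 : (1 : ℝ) ≤ n := by exact_mod_cast hn
  have h3 : (2 + δ) * (I.card : ℝ) ≤ (2 + δ) * (ε * n) :=
    mul_le_mul_of_nonneg_left h1 (by linarith)
  nlinarith

end Pool.Agent.J4H64.LS
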