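import Pool.Agent.J4H64.LS.Odd

set_option autoImplicit false
set_option linter.unusedSectionVars false

/-!
The number of closed walks of odd logarithmic length, as a polynomial.
-/

namespace Pool.Agent.J4H64.LS

open Finset DomAC0 Pool.Agent.J4H64.VC Pool.Agent.J4H64.LD
open scoped Classical Pointwise

variable (n : ℕ)

/-- the adjacency matrix with variables as entries -/
noncomputable def Mx : Matrix (Fin n) (Fin n) (MvPolynomial (Pairs n) ℝ) := fun u v =>
  if h : u < v then MvPolynomial.X (⟨(u, v), h⟩ : Pairs n)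
  else if h : v < u then MvPolynomial.X (⟨(v, u), h⟩ : Pairs n) else 0

/-- `n` times the number of closed walks of length `k` -/
noncomputable def trp (k : ℕ) : MvPolynomial (Pairs n) ℝ :=
  MvPolynomial.C (n : ℝ) * ∑ v, (Mx n ^ k) v v

variable {n}

theorem mx_deg (u v : Fin n) : (Mx n u v).totalDegree ≤ 1 := by
  unfold Mx
  split_ifs
  · rw [MvPolynomial.totalDegree_X]
  · rw [MvPolynomial.totalDegree_X]
  · rw [MvPolynomial.totalDegree_zero]
    exact Nat.zero_le _

theorem mx_supp (u v : Fin n) : (Mx n u v).support.card ≤ 1 := by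
  unfold Mx
  split_ifs
  · rw [MvPolynomial.support_X, card_singleton]
  · rw [MvPolynomial.support_X, card_singleton]
  · rw [MvPolynomial.support_zero, card_empty]
    exact Nat.zero_le _

theorem mx_pow_deg (k : ℕ) : ∀ u v : Fin n, ((Mx n ^ k) u v).totalDegree ≤ k := by
  induction k with
  | zero =>
    intro u v
    rw [pow_zero, Matrix.one_apply]
    split_ifs
    · rw [MvPolynomial.totalDegree_one]
    · rw [MvPolynomial.totalDegree_zero]
  | succ k ih =>
    intro u v
    rw [pow_succ, Matrix.mul_apply]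
    refine MvPolynomial.totalDegree_finsetSum_le fun w _ => ?_
    exact (MvPolynomial.totalDegree_mul _ _).trans (Nat.add_le_add (ih u w) (mx_deg w v))

theorem mx_pow_supp (k : ℕ) : ∀ u v : Fin n, ((Mx n ^ k) u v).support.card ≤ n ^ k := by
  induction k with
  | zero =>
    intro u v
    rw [pow_zero, pow_zero, Matrix.one_apply]
    split_ifs
    · rw [← MvPolynomial.C_1]
      exact (card_le_card MvPolynomial.support_monomial_subset).trans (card_singleton _).le
    · rw [MvPolynomial.support_zero, card_empty]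
      exact Nat.zero_le _
  | succ k ih =>
    intro u v
    rw [pow_succ, Matrix.mul_apply]
    refine (card_le_card MvPolynomial.support_sum).trans ?_
    refine (card_biUnion_le_card_mul _ _ (n ^ k * 1) fun w _ => ?_).trans ?_
    · exact (card_le_card (MvPolynomial.support_mul _ _)).trans
        (card_add_le.trans (Nat.mul_le_mul (ih u w) (mx_supp w v)))
    · rw [card_univ, Fintype.card_fin, mul_one, pow_succ, mul_comm]

theorem trp_deg (k : ℕ) : (trp n k).totalDegree ≤ k := by
  unfold trp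
  refine (MvPolynomial.totalDegree_mul _ _).trans ?_
  rw [MvPolynomial.totalDegree_C, zero_add]
  exact MvPolynomial.totalDegree_finsetSum_le fun v _ => mx_pow_deg k v v

theorem trp_supp (k : ℕ) : (trp n k).support.card ≤ n ^ (k + 1) := by
  unfold trp
  rw [MvPolynomial.C_mul']
  refine (card_le_card MvPolynomial.support_smul).trans ?_
  refine (card_le_card MvPolynomial.support_sum).trans ?_
  refine (card_biUnion_le_card_mul _ _ (n ^ k) fun w _ => mx_pow_supp k w w).trans ?_
  rw [card_univ, Fintype.card_fin, pow_succ, mul_comm]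

theorem ev_trp (k : ℕ) (G : SimpleGraph (Fin n)) :
    ev (trp n k) G = n * ∑ v, (Fintype.card {p : G.Walk v v | p.length = k} : ℝ) := by
  unfold ev trp
  rw [map_mul, MvPolynomial.eval_C, map_sum]
  congr 1
  refine sum_congr rfl fun v _ => ?_
  rw [← SimpleGraph.adjMatrix_pow_apply_eq_card_walk]
  obtain ⟨f, hf⟩ : ∃ f : MvPolynomial (Pairs n) ℝ →+* ℝ,
      f = MvPolynomial.eval fun e : Pairs n => if G.Adj e.1.1 e.1.2 then (1 : ℝ) else 0 := ⟨_, rfl⟩
  rw [← hf]
  have h1 : f.mapMatrix (Mx n) = G.adjMatrix ℝ := by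
    ext u w
    rw [RingHom.mapMatrix_apply, Matrix.map_apply, SimpleGraph.adjMatrix_apply, hf]
    unfold Mx
    rcases lt_trichotomy u w with h2 | h2 | h2
    · rw [dif_pos h2, MvPolynomial.eval_X]
    · rw [h2, dif_neg (lt_irrefl _), dif_neg (lt_irrefl _), map_zero, if_neg (G.irrefl)]
    · rw [dif_neg (lt_asymm h2), dif_pos h2, MvPolynomial.eval_X]
      simp only [SimpleGraph.adj_comm G w u]
  have h2 : f.mapMatrix (Mx n ^ k) = G.adjMatrix ℝ ^ k := by rw [map_pow, h1]
  rw [← h2, RingHom.mapMatrix_apply, Matrix.map_apply]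

/-- the polynomial vanishes on bipartite graphs -/
theorem ev_bip (r : ℕ) {G : SimpleGraph (Fin n)} (hG : G.Colorable 2) :
    ev (trp n (2 * r + 1)) G = 0 := by
  rw [ev_trp, sum_eq_zero, mul_zero]
  intro v _
  rw [Nat.cast_eq_zero, Fintype.card_eq_zero_iff]
  refine ⟨fun p => ?_⟩
  have h1 := SimpleGraph.two_colorable_iff_forall_loop_even.1 hG v p.1
  have h2 : p.1.length = 2 * r + 1 := p.2
  rw [h2, Nat.even_iff] at h1
  omega

/-- the polynomial is at least `n` if there is a closed walk -/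
theorem ev_walk (k : ℕ) {G : SimpleGraph (Fin n)} {v : Fin n} (p : G.Walk v v)
    (hp : p.length = k) : (n : ℝ) ≤ ev (trp n k) G := by
  rw [ev_trp]
  have h1 : (1 : ℝ) ≤ ∑ v, (Fintype.card {p : G.Walk v v | p.length = k} : ℝ) := by
    have h2 : 0 < Fintype.card {p : G.Walk v v | p.length = k} :=
      Fintype.card_pos_iff.2 ⟨⟨p, hp⟩⟩
    have h3 : (1 : ℝ) ≤ (Fintype.card {p : G.Walk v v | p.length = k} : ℝ) := by
      exact_mod_cast h2
    exact h3.trans (single_le_sum (f := fun v =>
      (Fintype.card {p : G.Walk v v | p.length = k} : ℝ)) (fun _ _ => Nat.cast_nonneg _)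
      (mem_univ v))
  have h4 : (0 : ℝ) ≤ n := Nat.cast_nonneg n
  nlinarith

/-- logarithmic degree suffices for `ε < 1 / 2` -/
theorem optimal (ε : ℝ) (hε : 0 < ε) (hε2 : ε < 1 / 2) : ∃ C : ℝ, ∀ n ≥ 2,
    ∃ p : MvPolynomial (Pairs n) ℝ, (p.totalDegree : ℝ) ≤ C * Real.log n ∧
      (p.support.card : ℝ) ≤ (n : ℝ) ^ (C * Real.log n) ∧
      ∀ G : SimpleGraph (Fin n), (G.Colorable 2 → ev p G = 0) ∧
        (SmallInd ε G → (n : ℝ) ≤ ev p G) := by
  obtain ⟨δ, hδ⟩ : ∃ δ, δ = (1 / ε - 2) / 2 := ⟨_, rfl⟩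
  have hδ0 : 0 < δ := by
    rw [hδ]
    have h1 : 2 < 1 / ε := by
      rw [lt_div_iff₀ hε]
      linarith
    linarith
  have hδε : (2 + δ) * ε < 1 := by
    have h1 : (2 + δ) * ε = ε + 1 / 2 := by
      rw [hδ]
      field_simp
      ring
    rw [h1]
    linarith
  have hl : 0 < Real.log (1 + δ) := Real.log_pos (by linarith)
  have hl2 : 0 < Real.log 2 := Real.log_pos (by norm_num)
  refine ⟨2 / Real.log (1 + δ) + 4 / Real.log 2, fun n hn => ?_⟩
  have hnR : (2 : ℝ) ≤ n := by exact_mod_cast hn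
  have hlogn : Real.log 2 ≤ Real.log n := Real.log_le_log (by norm_num) hnR
  obtain ⟨r, hr⟩ : ∃ r, r = ⌊Real.log n / Real.log (1 + δ)⌋₊ + 1 := ⟨_, rfl⟩
  have hr1 : Real.log n / Real.log (1 + δ) < r := by
    rw [hr]
    push_cast
    exact Nat.lt_floor_add_one _
  have hr2 : (r : ℝ) ≤ Real.log n / Real.log (1 + δ) + 1 := by
    rw [hr]
    push_cast
    have := Nat.floor_le (show 0 ≤ Real.log n / Real.log (1 + δ) from
      div_nonneg (by linarith) hl.le)
    linarith
  have hpow : (n : ℝ) < (1 + δ) ^ r := by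
    rw [div_lt_iff₀ hl] at hr1
    rw [← Real.log_lt_log_iff (by linarith) (by positivity), Real.log_pow]
    exact hr1
  have hk : ((2 * r + 1 + 1 : ℕ) : ℝ) ≤ (2 / Real.log (1 + δ) + 4 / Real.log 2) * Real.log n := by
    push_cast
    have h1 : (2 / Real.log (1 + δ) + 4 / Real.log 2) * Real.log n =
        2 * (Real.log n / Real.log (1 + δ)) + 4 * (Real.log n / Real.log 2) := by ring
    have h2 : 1 ≤ Real.log n / Real.log 2 := by
      rw [le_div_iff₀ hl2]
      linarith
    rw [h1]
    linarith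
  refine ⟨trp n (2 * r + 1), ?_, ?_, fun G => ⟨ev_bip r, fun hG => ?_⟩⟩
  · refine le_trans ?_ hk
    exact_mod_cast (trp_deg (n := n) (2 * r + 1)).trans (Nat.le_succ _)
  · calc ((trp n (2 * r + 1)).support.card : ℝ) ≤ (n : ℝ) ^ (2 * r + 1 + 1) := by
          exact_mod_cast trp_supp (n := n) (2 * r + 1)
      _ = (n : ℝ) ^ ((2 * r + 1 + 1 : ℕ) : ℝ) := (Real.rpow_natCast _ _).symm
      _ ≤ _ := Real.rpow_le_rpow_of_exponent_le (by linarith) hk
  · obtain ⟨v, p, hp⟩ := exists_walk hδ0 hδε (by omega) hpow hG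
    exact ev_walk _ p hp

end Pool.Agent.J4H64.LS
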